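import Mathlib
import Pool.Agent.R441.RZ.Adm

set_option autoImplicit false

namespace Pool.Agent.Results.MP_7cf8a2_an.SymmetricPart

open Pool.Agent.R441.RZ

/-- Q1 of MP_7cf8a2_an is false: for the unimodular irreducible Pisot substitution
`1 → 132`, `2 → 12`, `3 → 1` (letters `0,1,2` below) the intersection set
`I_σ = R_σ ∩ R_{σ̂}` is `{0}`, so its boundary has Hausdorff dimension `0`, while the boundary of
the Rauzy fractal `R_σ` has Hausdorff dimension at least `1`. -/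
theorem result : ∃ (σ : Subst 3) (lam : ℝ), σ = ![[0, 2, 1], [0, 1], [0]] ∧
    UnimodIrredPisot σ lam ∧ IsCompl (Es σ lam) (Eu σ lam) ∧
    (∃ u, TwoSidedFixed σ u ∧ Admissible σ u) ∧
    (∃ v, TwoSidedFixed (rev σ) v ∧ Admissible (rev σ) v) ∧
    ∀ u v, TwoSidedFixed σ u → TwoSidedFixed (rev σ) v →
      Rauzy σ lam u ∩ Rauzy (rev σ) lam v = {0} ∧
      dimBd σ lam (Rauzy σ lam u ∩ Rauzy (rev σ) lam v) = 0 ∧
      1 ≤ dimBd σ lam (Rauzy σ lam u) := main_adm

end Pool.Agent.Results.MP_7cf8a2_an.SymmetricPart
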